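import Mathlib
import Pool.Agent.Helper60.SB.Defs2

/-! Module F0 of MP_7fc85e_an: the univariate kernel. -/

open Finset MeasureTheory Filter Topology
open scoped ENNReal Real
open Pool.Agent.Helper60.SB

namespace Pool.Agent.Helper22.SB

/-- partial sums -/
noncomputable def ps (r a t : ℝ) (N : ℕ) : ℝ :=
  ∑ k ∈ range N, ((k : ℝ) + 1) ^ (-r) * Real.cos (((k : ℝ) + 1) * t - a * π / 2)

theorem bern_eq (r a t : ℝ) : bern r a t = 1 + 2 * limUnder atTop (ps r a t) := rfl

theorem ps_periodic (r a x : ℝ) : ps r a (x + 2 * π) = ps r a x := by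
  funext N
  unfold ps
  refine Finset.sum_congr rfl fun k _ => ?_
  congr 1
  have : ((k : ℝ) + 1) * (x + 2 * π) - a * π / 2 =
      (((k : ℝ) + 1) * x - a * π / 2) + ((k + 1 : ℕ) : ℝ) * (2 * π) := by
    push_cast
    ring
  rw [this, Real.cos_add_nat_mul_two_pi]

theorem bern_periodic (r a : ℝ) (x : ℝ) : bern r a (x + 2 * π) = bern r a x := by
  rw [bern_eq, bern_eq, ps_periodic]

/-- sums of cosines -/
theorem cos_bound (t a : ℝ) (K n : ℕ) (h : Real.sin (t / 2) ≠ 0) :
    |∑ k ∈ range n, Real.cos ((((K + k : ℕ) : ℝ) + 1) * t - a * π / 2)| ≤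
      1 / |Real.sin (t / 2)| := by
  set z : ℂ := Complex.exp (Complex.I * t) with hz
  set w : ℂ := Complex.exp (Complex.I * (((K : ℝ) + 1) * t - a * π / 2 : ℝ)) with hw
  have hz1 : ‖z - 1‖ = 2 * |Real.sin (t / 2)| := by
    rw [hz, Complex.norm_exp_I_mul_ofReal_sub_one]
    rw [Real.norm_eq_abs, abs_mul, abs_two]
  have hs : 0 < |Real.sin (t / 2)| := abs_pos.2 h
  have hzne : z ≠ 1 := by
    intro h1
    rw [h1, sub_self, norm_zero] at hz1
    linarith
  have hnz : ‖z‖ = 1 := by
    rw [hz, mul_comm]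
    exact Complex.norm_exp_ofReal_mul_I t
  have hnw : ‖w‖ = 1 := by
    rw [hw, mul_comm]
    exact Complex.norm_exp_ofReal_mul_I _
  have e1 : ∀ k : ℕ, Real.cos ((((K + k : ℕ) : ℝ) + 1) * t - a * π / 2) = (w * z ^ k).re := by
    intro k
    have : w * z ^ k = Complex.exp (((((K + k : ℕ) : ℝ) + 1) * t - a * π / 2 : ℝ) * Complex.I) := by
      rw [hw, hz, ← Complex.exp_nat_mul, ← Complex.exp_add]
      congr 1
      push_cast
      ring
    rw [this, Complex.exp_ofReal_mul_I_re]
  have e2 : ∑ k ∈ range n, Real.cos ((((K + k : ℕ) : ℝ) + 1) * t - a * π / 2) =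
      (w * ∑ k ∈ range n, z ^ k).re := by
    rw [Finset.mul_sum, Complex.re_sum]
    exact Finset.sum_congr rfl fun k _ => e1 k
  rw [e2]
  refine (Complex.abs_re_le_norm _).trans ?_
  rw [norm_mul, hnw, one_mul, geom_sum_eq hzne, norm_div, hz1]
  have h2 : ‖z ^ n - 1‖ ≤ 2 := by
    refine (norm_sub_le _ _).trans ?_
    rw [norm_pow, hnz, one_pow, norm_one]
    norm_num
  rw [div_le_div_iff₀ (by positivity) hs]
  nlinarith

/-- Abel's inequality -/
theorem abel (f z : ℕ → ℝ) (hf : Antitone f) (hf0 : ∀ k, 0 ≤ f k) (b : ℝ)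
    (hb : ∀ n, |∑ k ∈ range n, z k| ≤ b) (n : ℕ) :
    |∑ k ∈ range n, f k * z k| ≤ f 0 * b := by
  have h1 : ∀ n, ∑ k ∈ range n, f k * z k = f n * (∑ k ∈ range n, z k) +
      ∑ k ∈ range n, (f k - f (k + 1)) * ∑ j ∈ range (k + 1), z j := by
    intro n
    induction n with
    | zero => simp
    | succ n ih =>
      rw [Finset.sum_range_succ, ih, Finset.sum_range_succ (fun k => (f k - f (k + 1)) * _)]
      rw [Finset.sum_range_succ (fun k => z k) n]
      ring
  have h2 : |∑ k ∈ range n, (f k - f (k + 1)) * ∑ j ∈ range (k + 1), z j| ≤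
      (f 0 - f n) * b := by
    calc |∑ k ∈ range n, (f k - f (k + 1)) * ∑ j ∈ range (k + 1), z j|
        ≤ ∑ k ∈ range n, |(f k - f (k + 1)) * ∑ j ∈ range (k + 1), z j| :=
          Finset.abs_sum_le_sum_abs _ _
      _ ≤ ∑ k ∈ range n, (f k - f (k + 1)) * b := by
          refine Finset.sum_le_sum fun k _ => ?_
          have h3 : 0 ≤ f k - f (k + 1) := sub_nonneg.2 (hf (Nat.le_succ k))
          rw [abs_mul, abs_of_nonneg h3]
          exact mul_le_mul_of_nonneg_left (hb _) h3
      _ = (f 0 - f n) * b := by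
          rw [← Finset.sum_mul, Finset.sum_range_sub']
  rw [h1]
  refine (abs_add_le _ _).trans ?_
  rw [abs_mul, abs_of_nonneg (hf0 n)]
  have := mul_le_mul_of_nonneg_left (hb n) (hf0 n)
  nlinarith

theorem coef_anti (r : ℝ) (hr : 0 < r) (K : ℕ) :
    Antitone (fun k : ℕ => (((K + k : ℕ) : ℝ) + 1) ^ (-r)) := by
  intro m n hmn
  have h1 : (0 : ℝ) < ((K + m : ℕ) : ℝ) + 1 := by positivity
  refine Real.rpow_le_rpow_of_nonpos h1 ?_ (by linarith)
  have : ((K + m : ℕ) : ℝ) ≤ ((K + n : ℕ) : ℝ) := by exact_mod_cast Nat.add_le_add_left hmn K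
  linarith

theorem ps_le_nat (r a t : ℝ) (hr : 0 < r) (N : ℕ) : |ps r a t N| ≤ N := by
  unfold ps
  calc |∑ k ∈ range N, ((k : ℝ) + 1) ^ (-r) * Real.cos (((k : ℝ) + 1) * t - a * π / 2)|
      ≤ ∑ k ∈ range N, |((k : ℝ) + 1) ^ (-r) * Real.cos (((k : ℝ) + 1) * t - a * π / 2)| :=
        Finset.abs_sum_le_sum_abs _ _
    _ ≤ ∑ _k ∈ range N, (1 : ℝ) := by
        refine Finset.sum_le_sum fun k _ => ?_
        rw [abs_mul]
        have h1 : |((k : ℝ) + 1) ^ (-r)| ≤ 1 := by
          rw [abs_of_nonneg (by positivity)]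
          exact Real.rpow_le_one_of_one_le_of_nonpos (by linarith [Nat.cast_nonneg (α := ℝ) k])
            (by linarith)
        have h2 := Real.abs_cos_le_one (((k : ℝ) + 1) * t - a * π / 2)
        exact mul_le_one₀ h1 (abs_nonneg _) h2
    _ = N := by simp

/-- the main bound with a splitting point -/
theorem ps_le_split (r a t : ℝ) (hr : 0 < r) (h : Real.sin (t / 2) ≠ 0) (K N : ℕ) :
    |ps r a t N| ≤ K + ((K : ℝ) + 1) ^ (-r) * (1 / |Real.sin (t / 2)|) := by
  have hpos : 0 ≤ ((K : ℝ) + 1) ^ (-r) * (1 / |Real.sin (t / 2)|) := by positivity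
  rcases le_total N K with hNK | hNK
  · have h1 := ps_le_nat r a t hr N
    have h2 : (N : ℝ) ≤ K := by exact_mod_cast hNK
    linarith
  · obtain ⟨n, rfl⟩ := Nat.exists_eq_add_of_le hNK
    have h1 : ps r a t (K + n) = ps r a t K + ∑ k ∈ range n, (((K + k : ℕ) : ℝ) + 1) ^ (-r) *
        Real.cos ((((K + k : ℕ) : ℝ) + 1) * t - a * π / 2) := by
      unfold ps
      rw [Finset.sum_range_add]
    rw [h1]
    refine (abs_add_le _ _).trans (add_le_add (ps_le_nat r a t hr K) ?_)
    have h2 := abel (fun k : ℕ => (((K + k : ℕ) : ℝ) + 1) ^ (-r))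
      (fun k => Real.cos ((((K + k : ℕ) : ℝ) + 1) * t - a * π / 2)) (coef_anti r hr K)
      (fun k => by positivity) _ (fun n => cos_bound t a K n h) n
    simpa using h2

/-- the exponent of the dominating function -/
noncomputable def be (r : ℝ) : ℝ := max (1 / 2) (1 - r / 2)

theorem be_lt (r : ℝ) (hr : 0 < r) : be r < 1 := by
  unfold be
  refine max_lt (by norm_num) (by linarith)

theorem be_pos (r : ℝ) : 0 < be r := lt_of_lt_of_le (by norm_num) (le_max_left _ _)

theorem ps_dom (r a t : ℝ) (hr : 0 < r) (h : Real.sin (t / 2) ≠ 0) (N : ℕ) :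
    |ps r a t N| ≤ 2 * |Real.sin (t / 2)| ^ (-be r) := by
  set s : ℝ := |Real.sin (t / 2)| with hs
  have hs0 : 0 < s := abs_pos.2 h
  have hs1 : s ≤ 1 := Real.abs_sin_le_one _
  have h1 := ps_le_split r a t hr h ⌊s ^ (-(1 / 2) : ℝ)⌋₊ N
  rw [← hs] at h1
  have h2 : ((⌊s ^ (-(1 / 2) : ℝ)⌋₊ : ℕ) : ℝ) ≤ s ^ (-(1 / 2) : ℝ) :=
    Nat.floor_le (by positivity)
  have h3 : s ^ (-(1 / 2) : ℝ) < ((⌊s ^ (-(1 / 2) : ℝ)⌋₊ : ℕ) : ℝ) + 1 := Nat.lt_floor_add_one _
  have h4 : s ^ (-(1 / 2) : ℝ) ≤ s ^ (-be r) := by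
    refine Real.rpow_le_rpow_of_exponent_ge hs0 hs1 ?_
    have : 1 / 2 ≤ be r := le_max_left _ _
    linarith
  have h5 : (((⌊s ^ (-(1 / 2) : ℝ)⌋₊ : ℕ) : ℝ) + 1) ^ (-r) ≤ (s ^ (-(1 / 2) : ℝ)) ^ (-r) :=
    Real.rpow_le_rpow_of_nonpos (by positivity) h3.le (by linarith)
  have h6 : (s ^ (-(1 / 2) : ℝ)) ^ (-r) * (1 / s) = s ^ (r / 2 - 1) := by
    have e : 1 / s = s ^ (-1 : ℝ) := by rw [one_div, Real.rpow_neg_one]
    rw [← Real.rpow_mul hs0.le, e, ← Real.rpow_add hs0]
    congr 1
    ring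
  have h7 : s ^ (r / 2 - 1) ≤ s ^ (-be r) := by
    refine Real.rpow_le_rpow_of_exponent_ge hs0 hs1 ?_
    have : 1 - r / 2 ≤ be r := le_max_right _ _
    linarith
  have h8 : (((⌊s ^ (-(1 / 2) : ℝ)⌋₊ : ℕ) : ℝ) + 1) ^ (-r) * (1 / s) ≤ s ^ (-be r) := by
    refine le_trans (mul_le_mul_of_nonneg_right h5 (by positivity)) ?_
    rw [h6]
    exact h7
  linarith

/-- convergence of the partial sums -/
theorem ps_tendsto (r a t : ℝ) (hr : 0 < r) (h : Real.sin (t / 2) ≠ 0) :
    Tendsto (ps r a t) atTop (𝓝 (limUnder atTop (ps r a t))) := by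
  have h1 := (coef_anti r hr 0).cauchySeq_series_mul_of_tendsto_zero_of_bounded
    (z := fun k => Real.cos ((((0 + k : ℕ) : ℝ) + 1) * t - a * π / 2))
    (b := 1 / |Real.sin (t / 2)|) ?_ (fun n => by
      rw [Real.norm_eq_abs]
      exact cos_bound t a 0 n h)
  · have h2 : CauchySeq (ps r a t) := by
      have e : ps r a t = fun n => ∑ i ∈ range n, (((0 + i : ℕ) : ℝ) + 1) ^ (-r) •
          Real.cos ((((0 + i : ℕ) : ℝ) + 1) * t - a * π / 2) := by
        funext n
        unfold ps
        simp [smul_eq_mul]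
      rw [e]
      exact h1
    exact h2.tendsto_limUnder
  · have h3 : Tendsto (fun k : ℕ => ((k : ℝ) + 1)) atTop atTop :=
      tendsto_atTop_add_const_right _ _ tendsto_natCast_atTop_atTop
    have h4 := (tendsto_rpow_neg_atTop hr).comp h3
    refine h4.congr fun k => ?_
    simp

/-! ### the measure -/

theorem integrable_tor1 {E : Type*} [NormedAddCommGroup E] {f : ℝ → E}
    (h : IntervalIntegrable f volume 0 (2 * π)) : Integrable f tor1 := by
  rw [intervalIntegrable_iff_integrableOn_Ico_of_le Real.two_pi_pos.le] at h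
  unfold tor1
  refine Integrable.smul_measure h ?_
  rw [ENNReal.inv_ne_top, ne_eq, ENNReal.ofReal_eq_zero, not_le]
  exact Real.two_pi_pos

theorem integral_tor1 (f : ℝ → ℂ) :
    ∫ y, f y ∂tor1 = (((2 * π)⁻¹ : ℝ) : ℂ) * ∫ y in (0 : ℝ)..(2 * π), f y := by
  unfold tor1
  rw [integral_smul_measure, ENNReal.toReal_inv, ENNReal.toReal_ofReal Real.two_pi_pos.le,
    intervalIntegral.integral_of_le Real.two_pi_pos.le, ← integral_Ico_eq_integral_Ioc]
  exact Complex.real_smul

theorem ae_tor1 {s : Set ℝ} (hs : s.Countable) : ∀ᵐ y ∂tor1, y ∉ s := by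
  have h1 : tor1 ≪ (volume : Measure ℝ) := by
    unfold tor1
    exact (Measure.absolutelyContinuous_of_le Measure.restrict_le_self).smul_left _
  exact h1.ae_le (hs.ae_notMem volume)

theorem countable_bad (x : ℝ) : {y : ℝ | Real.sin ((x - y) / 2) = 0}.Countable := by
  refine (Set.countable_range fun n : ℤ => x - 2 * (n * π)).mono ?_
  intro y hy
  obtain ⟨n, hn⟩ := Real.sin_eq_zero_iff.1 (show Real.sin ((x - y) / 2) = 0 from hy)
  refine ⟨n, ?_⟩
  show x - 2 * (n * π) = y
  rw [hn]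
  ring

theorem dom_interval (b : ℝ) (hb0 : 0 < b) (hb1 : b < 1) (a₁ a₂ : ℝ) :
    IntervalIntegrable (fun t => |Real.sin (t / 2)| ^ (-b)) volume a₁ a₂ := by
  have hper : Function.Periodic (fun t => |Real.sin (t / 2)| ^ (-b)) (2 * π) := by
    intro t
    show |Real.sin ((t + 2 * π) / 2)| ^ (-b) = _
    have : (t + 2 * π) / 2 = t / 2 + π := by ring
    rw [this, Real.sin_add_pi, abs_neg]
  have hmeas : Measurable (fun t => |Real.sin (t / 2)| ^ (-b)) := by fun_prop
  have h1 : IntervalIntegrable (fun t => |Real.sin (t / 2)| ^ (-b)) volume 0 π := by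
    have h2 : IntervalIntegrable (fun t : ℝ => π ^ b * t ^ (-b)) volume 0 π :=
      (intervalIntegral.intervalIntegrable_rpow' (by linarith)).const_mul _
    refine h2.mono_fun hmeas.aestronglyMeasurable ?_
    rw [Filter.EventuallyLE, ae_restrict_iff' measurableSet_uIoc]
    refine Filter.Eventually.of_forall fun t ht => ?_
    rw [Set.uIoc_of_le Real.pi_pos.le] at ht
    have h3 : t / π ≤ |Real.sin (t / 2)| := by
      have h4 := Real.mul_le_sin (x := t / 2) (by linarith [ht.1]) (by linarith [ht.2])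
      refine le_trans ?_ (h4.trans (le_abs_self _))
      apply le_of_eq
      field_simp
    have h5 : 0 < t / π := div_pos ht.1 Real.pi_pos
    have h6 : |Real.sin (t / 2)| ^ (-b) ≤ (t / π) ^ (-b) :=
      Real.rpow_le_rpow_of_nonpos h5 h3 (by linarith)
    have h7 : (t / π) ^ (-b) = π ^ b * t ^ (-b) := by
      rw [Real.div_rpow ht.1.le Real.pi_pos.le, Real.rpow_neg Real.pi_pos.le, div_inv_eq_mul,
        mul_comm]
    have ht0 := ht.1
    have hpi := Real.pi_pos
    rw [Real.norm_of_nonneg (by positivity), Real.norm_of_nonneg (by positivity), ← h7]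
    exact h6
  have h2 : IntervalIntegrable (fun t => |Real.sin (t / 2)| ^ (-b)) volume (-π) 0 := by
    have h3 := h1.comp_sub_left 0
    have e : (fun t => |Real.sin ((0 - t) / 2)| ^ (-b)) = fun t => |Real.sin (t / 2)| ^ (-b) := by
      funext t
      have : (0 - t) / 2 = -(t / 2) := by ring
      rw [this, Real.sin_neg, abs_neg]
    rw [e] at h3
    simpa using h3.symm
  have h3 := h2.trans h1
  refine hper.intervalIntegrable Real.two_pi_pos.ne' (t := -π) ?_ a₁ a₂
  have : -π + 2 * π = π := by ring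
  rw [this]
  exact h3

theorem dom_integrable (b : ℝ) (hb0 : 0 < b) (hb1 : b < 1) (x : ℝ) :
    Integrable (fun y => |Real.sin ((x - y) / 2)| ^ (-b)) tor1 := by
  refine integrable_tor1 ?_
  have h := (dom_interval b hb0 hb1 x (x - 2 * π)).comp_sub_left x
  have e : x - (x - 2 * π) = 2 * π := by ring
  rw [sub_self, e] at h
  exact h

theorem ps_measurable (r a x : ℝ) (N : ℕ) : Measurable (fun y => ps r a (x - y) N) := by
  unfold ps
  fun_prop

theorem ae_tendsto (r a : ℝ) (hr : 0 < r) (x : ℝ) :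
    ∀ᵐ y ∂tor1, Tendsto (fun N => 1 + 2 * ps r a (x - y) N) atTop (𝓝 (bern r a (x - y))) := by
  filter_upwards [ae_tor1 (countable_bad x)] with y hy
  have h := ps_tendsto r a (x - y) hr hy
  rw [bern_eq]
  exact (h.const_mul 2).const_add 1

theorem ae_bound (r a : ℝ) (hr : 0 < r) (x : ℝ) (N : ℕ) :
    ∀ᵐ y ∂tor1, |1 + 2 * ps r a (x - y) N| ≤ 1 + 4 * |Real.sin ((x - y) / 2)| ^ (-be r) := by
  filter_upwards [ae_tor1 (countable_bad x)] with y hy
  have h := ps_dom r a (x - y) hr hy N
  refine (abs_add_le _ _).trans ?_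
  rw [abs_one, abs_mul, abs_two]
  linarith

theorem bd_integrable (r : ℝ) (hr : 0 < r) (x : ℝ) :
    Integrable (fun y => 1 + 4 * |Real.sin ((x - y) / 2)| ^ (-be r)) tor1 := by
  have h1 : Integrable (fun _ : ℝ => (1 : ℝ)) tor1 :=
    integrable_tor1 intervalIntegrable_const
  exact h1.add ((dom_integrable (be r) (be_pos r) (be_lt r hr) x).const_mul 4)

theorem bern_integrable (r a : ℝ) (hr : 0 < r) (x : ℝ) :
    Integrable (fun y => bern r a (x - y)) tor1 := by
  refine (bd_integrable r hr x).mono'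
    (aestronglyMeasurable_of_tendsto_ae atTop
      (fun N => ((ps_measurable r a x N).const_mul 2 |>.const_add 1).aestronglyMeasurable)
      (ae_tendsto r a hr x)) ?_
  have h1 : ∀ᵐ y ∂tor1, ∀ N, |1 + 2 * ps r a (x - y) N| ≤
      1 + 4 * |Real.sin ((x - y) / 2)| ^ (-be r) := ae_all_iff.2 fun N => ae_bound r a hr x N
  filter_upwards [h1, ae_tendsto r a hr x] with y hy1 hy2
  rw [Real.norm_eq_abs]
  exact le_of_tendsto hy2.abs (Filter.Eventually.of_forall hy1)

/-! ### Fourier coefficients -/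

theorem exp_integral (n : ℤ) :
    ∫ y, Complex.exp (Complex.I * n * y) ∂tor1 = if n = 0 then 1 else 0 := by
  rw [integral_tor1]
  by_cases hn : n = 0
  · subst hn
    simp only [Int.cast_zero, mul_zero, zero_mul, Complex.exp_zero, if_true]
    rw [intervalIntegral.integral_const]
    have : (π : ℂ) ≠ 0 := by exact_mod_cast Real.pi_ne_zero
    rw [sub_zero, Complex.real_smul, mul_one]
    push_cast
    field_simp
  · rw [if_neg hn, integral_exp_mul_complex]
    · have h1 : Complex.exp (Complex.I * n * ((2 * π : ℝ) : ℂ)) = 1 := by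
        rw [Complex.exp_eq_one_iff]
        exact ⟨n, by push_cast; ring⟩
      rw [h1]
      simp
    · have : (n : ℂ) ≠ 0 := by exact_mod_cast hn
      exact mul_ne_zero Complex.I_ne_zero this

theorem exp_integrable (n : ℤ) : Integrable (fun y : ℝ => Complex.exp (Complex.I * n * y)) tor1 :=
  integrable_tor1 (Continuous.intervalIntegrable (by fun_prop) _ _)

/-- the coefficient of `exp (i (j+1) (x - y))` -/
noncomputable def cf (r a x : ℝ) (j : ℕ) : ℂ :=
  ((((j : ℝ) + 1) ^ (-r) : ℝ) : ℂ) * Complex.exp (Complex.I * (((j : ℝ) + 1) * x - a * π / 2 : ℝ))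

/-- the coefficient of `exp (- i (j+1) (x - y))` -/
noncomputable def cf' (r a x : ℝ) (j : ℕ) : ℂ :=
  ((((j : ℝ) + 1) ^ (-r) : ℝ) : ℂ) *
    Complex.exp (-(Complex.I * (((j : ℝ) + 1) * x - a * π / 2 : ℝ)))

theorem expand (r a x y : ℝ) (N : ℕ) (k : ℤ) :
    ((1 + 2 * ps r a (x - y) N : ℝ) : ℂ) * Complex.exp (Complex.I * k * y) =
      Complex.exp (Complex.I * k * y) + ∑ j ∈ range N,
        (cf r a x j * Complex.exp (Complex.I * (k - ((j : ℤ) + 1) : ℤ) * y) +
          cf' r a x j * Complex.exp (Complex.I * (k + ((j : ℤ) + 1) : ℤ) * y)) := by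
  have h1 : ∀ j : ℕ, ((2 * (((j : ℝ) + 1) ^ (-r) *
      Real.cos (((j : ℝ) + 1) * (x - y) - a * π / 2)) : ℝ) : ℂ) *
        Complex.exp (Complex.I * k * y) =
      cf r a x j * Complex.exp (Complex.I * (k - ((j : ℤ) + 1) : ℤ) * y) +
          cf' r a x j * Complex.exp (Complex.I * (k + ((j : ℤ) + 1) : ℤ) * y) := by
    intro j
    have e1 : Complex.exp (Complex.I * (k - ((j : ℤ) + 1) : ℤ) * y) =
        Complex.exp (-(Complex.I * ((j : ℂ) + 1) * y)) * Complex.exp (Complex.I * k * y) := by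
      rw [← Complex.exp_add]
      congr 1
      push_cast
      ring
    have e2 : Complex.exp (Complex.I * (k + ((j : ℤ) + 1) : ℤ) * y) =
        Complex.exp (Complex.I * ((j : ℂ) + 1) * y) * Complex.exp (Complex.I * k * y) := by
      rw [← Complex.exp_add]
      congr 1
      push_cast
      ring
    have e3 : ((Real.cos (((j : ℝ) + 1) * (x - y) - a * π / 2) : ℝ) : ℂ) =
        (Complex.exp (Complex.I * (((j : ℝ) + 1) * x - a * π / 2 : ℝ)) *
          Complex.exp (-(Complex.I * ((j : ℂ) + 1) * y)) +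
        Complex.exp (-(Complex.I * (((j : ℝ) + 1) * x - a * π / 2 : ℝ))) *
          Complex.exp (Complex.I * ((j : ℂ) + 1) * y)) / 2 := by
      rw [Complex.ofReal_cos, Complex.cos, ← Complex.exp_add, ← Complex.exp_add]
      congr 3
      · push_cast
        ring
      · push_cast
        ring
    rw [e1, e2]
    unfold cf cf'
    rw [Complex.ofReal_mul, Complex.ofReal_mul, e3]
    push_cast
    ring
  unfold ps
  rw [Complex.ofReal_add, add_mul, Finset.mul_sum, Complex.ofReal_sum, Finset.sum_mul,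
    Complex.ofReal_one, one_mul]
  congr 1
  exact Finset.sum_congr rfl fun j _ => h1 j

theorem partial_integral (r a x : ℝ) (N : ℕ) (k : ℤ) :
    ∫ y, ((1 + 2 * ps r a (x - y) N : ℝ) : ℂ) * Complex.exp (Complex.I * k * y) ∂tor1 =
      (if k = 0 then 1 else 0) + ∑ j ∈ range N,
        (cf r a x j * (if k - ((j : ℤ) + 1) = 0 then 1 else 0) +
          cf' r a x j * (if k + ((j : ℤ) + 1) = 0 then 1 else 0)) := by
  have h1 : ∀ j ∈ range N, Integrable (fun y : ℝ =>
      (cf r a x j * Complex.exp (Complex.I * (k - ((j : ℤ) + 1) : ℤ) * y) +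
          cf' r a x j * Complex.exp (Complex.I * (k + ((j : ℤ) + 1) : ℤ) * y))) tor1 := by
    intro j _
    exact ((exp_integrable _).const_mul _).add ((exp_integrable _).const_mul _)
  simp_rw [expand]
  rw [integral_add (exp_integrable k) (integrable_finsetSum _ h1), exp_integral,
    integral_finsetSum _ h1]
  congr 1
  refine Finset.sum_congr rfl fun j _ => ?_
  rw [integral_add ((exp_integrable _).const_mul _) ((exp_integrable _).const_mul _),
    integral_const_mul, integral_const_mul, exp_integral, exp_integral]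

theorem partial_value (r a x : ℝ) (N : ℕ) (k : ℤ) (hN : k.natAbs ≤ N) :
    ∫ y, ((1 + 2 * ps r a (x - y) N : ℝ) : ℂ) * Complex.exp (Complex.I * k * y) ∂tor1 =
      bmul r a k * Complex.exp (Complex.I * k * x) := by
  rw [partial_integral]
  rcases lt_trichotomy k 0 with hk | hk | hk
  · obtain ⟨m, rfl⟩ : ∃ m : ℕ, k = -((m : ℤ) + 1) := ⟨(-k - 1).toNat, by omega⟩
    rw [if_neg (by omega), zero_add, Finset.sum_eq_single m]
    · rw [if_neg (by omega), if_pos (by omega), mul_zero, zero_add, mul_one]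
      unfold cf' bmul
      rw [if_neg (by omega)]
      have h1 : |((-((m : ℤ) + 1) : ℤ) : ℝ)| = (m : ℝ) + 1 := by
        push_cast
        rw [abs_neg, abs_of_nonneg (by positivity)]
      have h2 : ((SignType.sign (-((m : ℤ) + 1)) : SignType) : ℤ) = -1 := by
        rw [sign_neg (by omega)]
        rfl
      rw [h1, h2, mul_assoc, ← Complex.exp_add]
      congr 2
      push_cast
      ring
    · intro j _ hj
      rw [if_neg (by omega), if_neg (by omega)]
      ring
    · intro h
      rw [Finset.mem_range] at h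
      omega
  · subst hk
    rw [if_pos rfl, Finset.sum_eq_zero]
    · unfold bmul
      simp
    · intro j _
      rw [if_neg (by omega), if_neg (by omega)]
      ring
  · obtain ⟨m, rfl⟩ : ∃ m : ℕ, k = (m : ℤ) + 1 := ⟨(k - 1).toNat, by omega⟩
    rw [if_neg (by omega), zero_add, Finset.sum_eq_single m]
    · rw [if_pos (by omega), if_neg (by omega), mul_zero, add_zero, mul_one]
      unfold cf bmul
      rw [if_neg (by omega)]
      have h1 : |((((m : ℤ) + 1 : ℤ)) : ℝ)| = (m : ℝ) + 1 := by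
        push_cast
        rw [abs_of_nonneg (by positivity)]
      have h2 : ((SignType.sign ((m : ℤ) + 1) : SignType) : ℤ) = 1 := by
        rw [sign_pos (by omega)]
        rfl
      rw [h1, h2, mul_assoc, ← Complex.exp_add]
      congr 2
      push_cast
      ring
    · intro j _ hj
      rw [if_neg (by omega), if_neg (by omega)]
      ring
    · intro h
      rw [Finset.mem_range] at h
      omega

theorem bern_conv_exp (r a : ℝ) (hr : 0 < r) (x : ℝ) (k : ℤ) :
    ∫ y, (bern r a (x - y) : ℂ) * Complex.exp (Complex.I * k * y) ∂tor1 =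
      bmul r a k * Complex.exp (Complex.I * k * x) := by
  have hn : ∀ y : ℝ, ‖Complex.exp (Complex.I * k * y)‖ = 1 := by
    intro y
    have : Complex.I * k * y = ((k * y : ℝ) : ℂ) * Complex.I := by
      push_cast
      ring
    rw [this]
    exact Complex.norm_exp_ofReal_mul_I _
  have h1 : Tendsto (fun N : ℕ => ∫ y, ((1 + 2 * ps r a (x - y) N : ℝ) : ℂ) *
      Complex.exp (Complex.I * k * y) ∂tor1) atTop
      (𝓝 (∫ y, (bern r a (x - y) : ℂ) * Complex.exp (Complex.I * k * y) ∂tor1)) := by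
    refine tendsto_integral_of_dominated_convergence
      (fun y => 1 + 4 * |Real.sin ((x - y) / 2)| ^ (-be r)) ?_ (bd_integrable r hr x) ?_ ?_
    · intro N
      have m1 : Measurable (fun y => 1 + 2 * ps r a (x - y) N) :=
        ((ps_measurable r a x N).const_mul 2).const_add 1
      have m2 : Measurable (fun y : ℝ => Complex.exp (Complex.I * k * y)) := by fun_prop
      exact ((Complex.measurable_ofReal.comp m1).mul m2).aestronglyMeasurable
    · intro N
      filter_upwards [ae_bound r a hr x N] with y hy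
      rw [norm_mul, hn, mul_one, Complex.norm_real]
      exact hy
    · filter_upwards [ae_tendsto r a hr x] with y hy
      exact ((Complex.continuous_ofReal.tendsto _).comp hy).mul_const _
  refine tendsto_nhds_unique h1 (tendsto_const_nhds.congr' ?_)
  filter_upwards [Filter.eventually_ge_atTop k.natAbs] with N hN
  exact (partial_value r a x N k hN).symm

end Pool.Agent.Helper22.SB
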