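import Pool.Agent.Helper60.SB.Defs3
import Pool.Agent.Helper22.SB.F0

/-! Module U12 of MP_7fc85e_an: Fourier coefficients for the class `W`. -/

open Finset MeasureTheory
open scoped ENNReal Real
open Pool.Agent.Helper60.SB

namespace Pool.Agent.Helper22.SB

theorem prob1 : IsProbabilityMeasure tor1 := by
  constructor
  have hpi : (0 : ℝ) < 2 * π := by positivity
  simp only [tor1, Measure.smul_apply, Measure.restrict_apply MeasurableSet.univ, Set.univ_inter,
    Real.volume_Ico, sub_zero, smul_eq_mul]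
  exact ENNReal.inv_mul_cancel (by simpa using hpi) ENNReal.ofReal_ne_top

theorem ps_measurable0 (r a : ℝ) (N : ℕ) : Measurable (fun t => ps r a t N) := by
  unfold ps
  fun_prop

theorem bern_measurable (r a : ℝ) : Measurable (bern r a) := by
  have h : StronglyMeasurable (fun t => Filter.limUnder Filter.atTop (fun N => ps r a t N)) :=
    StronglyMeasurable.limUnder fun N => (ps_measurable0 r a N).stronglyMeasurable
  have h2 : Measurable (fun t => 1 + 2 * Filter.limUnder Filter.atTop (fun N => ps r a t N)) :=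
    (h.measurable.const_mul 2).const_add 1
  exact h2

theorem Fker_measurable {d : ℕ} (r : ℝ) : Measurable (Fker r : (Fin d → ℝ) → ℝ) := by
  have h : Measurable (fun x : Fin d → ℝ => ∏ i, bern r r (x i)) :=
    Finset.measurable_prod _ fun i _ => (bern_measurable r r).comp (measurable_pi_apply i)
  exact h

theorem bern_neg (r a t : ℝ) : bern r a (-t) = bern r (-a) t := by
  rw [bern_eq, bern_eq]
  have : ps r a (-t) = ps r (-a) t := by
    funext N
    unfold ps
    refine Finset.sum_congr rfl fun k _ => ?_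
    rw [← Real.cos_neg]
    congr 2
    ring
  rw [this]

theorem bern_sub (r a x y : ℝ) : bern r a (x - y) = bern r (-a) (y - x) := by
  rw [← bern_neg]
  congr 1
  ring

theorem bern_integrable' (r a : ℝ) (hr : 0 < r) (y : ℝ) :
    Integrable (fun x => bern r a (x - y)) tor1 := by
  simp_rw [bern_sub r a _ y]
  exact bern_integrable r (-a) hr y

/-- the `L_1` norm does not depend on the shift -/
theorem bern_norm_shift (r a : ℝ) (y : ℝ) :
    ∫ x, ‖bern r a (x - y)‖ ∂tor1 = ∫ x, ‖bern r a x‖ ∂tor1 := by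
  have hint : ∀ f : ℝ → ℝ, ∫ y, f y ∂tor1 = (2 * π)⁻¹ * ∫ y in (0 : ℝ)..(2 * π), f y := by
    intro f
    unfold tor1
    rw [integral_smul_measure, ENNReal.toReal_inv, ENNReal.toReal_ofReal Real.two_pi_pos.le,
      intervalIntegral.integral_of_le Real.two_pi_pos.le, ← integral_Ico_eq_integral_Ioc,
      smul_eq_mul]
  rw [hint, hint]
  congr 1
  have hper : Function.Periodic (fun t => ‖bern r a t‖) (2 * π) := by
    intro t
    show ‖bern r a (t + 2 * π)‖ = _
    rw [bern_periodic]
  have h1 : ∫ x in (0 : ℝ)..(2 * π), ‖bern r a (x - y)‖ =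
      ∫ x in (0 - y)..(2 * π - y), ‖bern r a x‖ :=
    intervalIntegral.integral_comp_sub_right (fun t => ‖bern r a t‖) y
  rw [h1]
  have h2 := hper.intervalIntegral_add_eq (0 - y) 0
  have e1 : 0 - y + 2 * π = 2 * π - y := by ring
  rw [e1, zero_add] at h2
  exact h2

theorem Fker_integrable (d : ℕ) (r : ℝ) (hr : 0 < r) (y : Fin d → ℝ) :
    Integrable (fun x => (Fker r (x - y) : ℂ)) (tor d) := by
  have := prob1
  have h : Integrable (fun x : Fin d → ℝ => ∏ i, ((bern r r (x i - y i) : ℝ) : ℂ)) (tor d) :=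
    Integrable.fintype_prod (f := fun i t => ((bern r r (t - y i) : ℝ) : ℂ))
      fun i => (bern_integrable' r r hr (y i)).ofReal
  refine h.congr (Filter.Eventually.of_forall fun x => ?_)
  simp [Fker]

theorem Fker_norm (d : ℕ) (r : ℝ) (y : Fin d → ℝ) :
    ∫ x, ‖(Fker r (x - y) : ℂ)‖ ∂(tor d) = (∫ x, ‖bern r r x‖ ∂tor1) ^ d := by
  have := prob1
  have e : (fun x : Fin d → ℝ => ‖(Fker r (x - y) : ℂ)‖) =
      fun x => ∏ i, ‖bern r r (x i - y i)‖ := by
    funext x
    rw [Complex.norm_real, Fker, norm_prod]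
    rfl
  rw [e]
  have h := integral_fintype_prod_eq_prod (𝕜 := ℝ) (ι := Fin d) (E := fun _ => ℝ)
    (fun i t => ‖bern r r (t - y i)‖) (μ := fun _ => tor1)
  unfold tor
  rw [h]
  simp_rw [bern_norm_shift]
  rw [Finset.prod_const, Finset.card_univ, Fintype.card_fin]

/-- the kernel of the convolution is integrable on the product -/
theorem conv_integrable (d : ℕ) (r : ℝ) (hr : 0 < r) (φ : (Fin d → ℝ) → ℂ)
    (hφ : Integrable φ (tor d)) :
    Integrable (fun z : (Fin d → ℝ) × (Fin d → ℝ) => (Fker r (z.1 - z.2) : ℂ) * φ z.2)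
      ((tor d).prod (tor d)) := by
  have := prob1
  have : IsProbabilityMeasure (tor d) := by unfold tor; infer_instance
  have hm : AEStronglyMeasurable (fun z : (Fin d → ℝ) × (Fin d → ℝ) =>
      (Fker r (z.1 - z.2) : ℂ) * φ z.2) ((tor d).prod (tor d)) := by
    refine AEStronglyMeasurable.mul ?_ hφ.1.comp_snd
    have h1 : Measurable (fun z : (Fin d → ℝ) × (Fin d → ℝ) => (Fker r (z.1 - z.2) : ℂ)) :=
      Complex.measurable_ofReal.comp ((Fker_measurable r).comp (measurable_fst.sub measurable_snd))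
    exact h1.aestronglyMeasurable
  rw [integrable_prod_iff' hm]
  constructor
  · exact Filter.Eventually.of_forall fun y => (Fker_integrable d r hr y).mul_const (φ y)
  · have e : (fun y => ∫ x, ‖(Fker r (x - y) : ℂ) * φ y‖ ∂(tor d)) =
        fun y => (∫ x, ‖bern r r x‖ ∂tor1) ^ d * ‖φ y‖ := by
      funext y
      simp_rw [norm_mul]
      rw [integral_mul_const, Fker_norm]
    rw [e]
    exact hφ.norm.const_mul _

theorem bmul_neg (r : ℝ) (k : ℤ) : bmul r (-r) (-k) = bmul r r k := by
  unfold bmul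
  rcases eq_or_ne k 0 with hk | hk
  · simp [hk]
  · rw [if_neg (by omega), if_neg hk]
    congr 2
    · push_cast
      rw [abs_neg]
    · have : ((SignType.sign (-k) : SignType) : ℤ) = -((SignType.sign k : SignType) : ℤ) := by
        rcases lt_or_gt_of_ne hk with h | h
        · rw [sign_neg h, sign_pos (by omega)]; rfl
        · rw [sign_pos h, sign_neg (by omega)]; rfl
      rw [this]
      push_cast
      ring

/-- the inner integral -/
theorem Fker_exp (d : ℕ) (r : ℝ) (hr : 0 < r) (k : Fin d → ℤ) (y : Fin d → ℝ) :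
    ∫ x, (Fker r (x - y) : ℂ) * ex (-k) x ∂(tor d) = (∏ j, bmul r r (k j)) * ex (-k) y := by
  have := prob1
  have hex : ∀ x : Fin d → ℝ, ex (-k) x = ∏ j, Complex.exp (Complex.I * (-(k j) : ℤ) * x j) := by
    intro x
    unfold ex
    rw [Finset.mul_sum, Complex.exp_sum]
    refine Finset.prod_congr rfl fun j _ => ?_
    rw [mul_assoc]
    rfl
  have e : (fun x : Fin d → ℝ => (Fker r (x - y) : ℂ) * ex (-k) x) =
      fun x => ∏ j, (((bern r r (x j - y j) : ℝ) : ℂ) *
        Complex.exp (Complex.I * (-(k j) : ℤ) * x j)) := by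
    funext x
    rw [hex, Finset.prod_mul_distrib, Fker]
    congr 1
    push_cast
    rfl
  rw [e]
  have h := integral_fintype_prod_eq_prod (𝕜 := ℂ) (ι := Fin d) (E := fun _ => ℝ)
    (fun j t => ((bern r r (t - y j) : ℝ) : ℂ) * Complex.exp (Complex.I * (-(k j) : ℤ) * t))
    (μ := fun _ => tor1)
  unfold tor
  rw [h, hex, ← Finset.prod_mul_distrib]
  refine Finset.prod_congr rfl fun j _ => ?_
  simp_rw [bern_sub r r _ (y j)]
  rw [bern_conv_exp r (-r) hr, bmul_neg]

theorem fc_conv (d : ℕ) (r : ℝ) (hr : 0 < r) (φ : (Fin d → ℝ) → ℂ)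
    (hφ : Integrable φ (tor d)) :
    Integrable (fun x => ∫ y, (Fker r (x - y) : ℂ) * φ y ∂(tor d)) (tor d) ∧
    ∀ k, fc (fun x => ∫ y, (Fker r (x - y) : ℂ) * φ y ∂(tor d)) k =
      (∏ j, bmul r r (k j)) * fc φ k := by
  have := prob1
  have : IsProbabilityMeasure (tor d) := by unfold tor; infer_instance
  have hint := conv_integrable d r hr φ hφ
  refine ⟨hint.integral_prod_left, fun k => ?_⟩
  unfold fc
  have h1 : ∀ x, (∫ y, (Fker r (x - y) : ℂ) * φ y ∂(tor d)) * ex (-k) x =
      ∫ y, (Fker r (x - y) : ℂ) * φ y * ex (-k) x ∂(tor d) := fun x => by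
    rw [integral_mul_const]
  simp_rw [h1]
  have hcont : Continuous (fun z : (Fin d → ℝ) × (Fin d → ℝ) => ex (-k) z.1) := by
    unfold ex
    fun_prop
  have hint2 : Integrable (Function.uncurry fun x y : Fin d → ℝ =>
      (Fker r (x - y) : ℂ) * φ y * ex (-k) x) ((tor d).prod (tor d)) := by
    refine hint.mul_bdd (c := 1) hcont.aestronglyMeasurable
      (Filter.Eventually.of_forall fun z => ?_)
    rw [norm_ex]
  rw [integral_integral_swap hint2]
  have h2 : ∀ y, ∫ x, (Fker r (x - y) : ℂ) * φ y * ex (-k) x ∂(tor d) =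
      (∏ j, bmul r r (k j)) * (φ y * ex (-k) y) := by
    intro y
    have : (fun x => (Fker r (x - y) : ℂ) * φ y * ex (-k) x) =
        fun x => φ y * ((Fker r (x - y) : ℂ) * ex (-k) x) := by
      funext x; ring
    rw [this, integral_const_mul, Fker_exp d r hr]
    ring
  simp_rw [h2]
  rw [integral_const_mul]

theorem norm_bmul_le {d : ℕ} (r : ℝ) (hr : 0 < r) (k : Fin d → ℤ) :
    ‖∏ j, bmul r r (k j)‖ ≤ (2 : ℝ) ^ (r * d) * (2 : ℝ) ^ (-(r * ∑ j, (lev k j : ℝ))) := by
  have h1 : ∀ j, ‖bmul r r (k j)‖ ≤ (2 : ℝ) ^ r * (2 : ℝ) ^ (-(r * (lev k j : ℝ))) := by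
    intro j
    unfold bmul
    split_ifs with h
    · rw [norm_one]
      have : lev k j = 0 := by unfold lev; rw [h]; simp
      rw [this]
      simp only [Nat.cast_zero, mul_zero, neg_zero, Real.rpow_zero, mul_one]
      exact Real.one_le_rpow (by norm_num) hr.le
    · rw [norm_mul]
      have e1 : ‖Complex.exp (-(Complex.I * ((SignType.sign (k j) : SignType) : ℤ) *
          (r * π / 2)))‖ = 1 := by
        obtain ⟨s, hs⟩ : ∃ s : ℤ, ((SignType.sign (k j) : SignType) : ℤ) = s := ⟨_, rfl⟩
        rw [hs]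
        have : -(Complex.I * (s : ℂ) * (r * π / 2)) =
            ((-((s : ℝ) * (r * π / 2)) : ℝ) : ℂ) * Complex.I := by
          push_cast; ring
        rw [this, Complex.norm_exp_ofReal_mul_I]
      rw [e1, mul_one, Complex.norm_real, Real.norm_eq_abs, abs_of_nonneg (by positivity),
        ← Real.rpow_add (by norm_num)]
      have h2 : 0 < (k j).natAbs := Int.natAbs_pos.2 h
      have h3 : 0 < lev k j := Nat.size_pos.2 h2
      have h4 : 2 ^ (lev k j - 1) ≤ (k j).natAbs := Nat.lt_size.1 (Nat.sub_lt h3 one_pos)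
      have h5 : (2 : ℝ) ^ ((lev k j : ℝ) - 1) ≤ |(k j : ℝ)| := by
        have e2 : ((lev k j : ℝ) - 1) = ((lev k j - 1 : ℕ) : ℝ) := by
          rw [Nat.cast_sub h3]; simp
        rw [e2, Real.rpow_natCast]
        have e3 : |(k j : ℝ)| = ((k j).natAbs : ℝ) := by
          rw [Nat.cast_natAbs]; push_cast; rfl
        rw [e3]
        exact_mod_cast h4
      calc |(k j : ℝ)| ^ (-r) ≤ ((2 : ℝ) ^ ((lev k j : ℝ) - 1)) ^ (-r) :=
            Real.rpow_le_rpow_of_nonpos (by positivity) h5 (by linarith)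
        _ = (2 : ℝ) ^ (r + -(r * (lev k j : ℝ))) := by
            rw [← Real.rpow_mul (by norm_num)]
            congr 1
            ring
  rw [norm_prod]
  refine (Finset.prod_le_prod (fun j _ => norm_nonneg _) fun j _ => h1 j).trans (le_of_eq ?_)
  rw [Finset.prod_mul_distrib, Finset.prod_const, Finset.card_univ, Fintype.card_fin,
    ← Real.rpow_natCast, ← Real.rpow_mul (by norm_num)]
  congr 1
  rw [← Real.rpow_sum_of_pos (by norm_num)]
  congr 1
  rw [Finset.mul_sum, Finset.sum_neg_distrib]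

end Pool.Agent.Helper22.SB
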