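import Pool.Agent.Helper60.SB.Upper
import Pool.Agent.Helper60.SB.Defs5

/-!
Outer levels of the classes `W^r_p`, `p = 1` and `p = 2`.
-/

open Finset MeasureTheory
open scoped ENNReal Real

namespace Pool.Agent.Helper22.SB

open Pool.Agent.Helper60.SB

lemma MPW_eq (e : ℕ) (r : ℝ) (φ : (Fin (e + 1) → ℝ) → ℂ)
    (y : (m : ℕ) → (Qm (e + 1) m × Bool → ℝ))
    (hy : ∀ m, ∀ k : Qm (e + 1) m, (∏ j, bmul r r ((k : Fin (e + 1) → ℤ) j)) * fc φ k =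
      (((2 : ℝ) ^ (-(r * m)) : ℝ) : ℂ) * cco (y m) k) (N J : ℕ) (x : Fin (e + 1) → ℝ) :
    MPW r (Qmid (e + 1) N J) φ x = ∑ m ∈ Finset.Icc (N - J) (N + J),
      (((2 : ℝ) ^ (-(r * m)) : ℝ) : ℂ) * TT (Qm (e + 1) m) (y m) x := by
  unfold MPW Qmid
  rw [Finset.sum_biUnion]
  · refine Finset.sum_congr rfl fun m _ => ?_
    unfold TT
    rw [Finset.mul_sum, ← Finset.sum_coe_sort (Qm (e + 1) m)]
    refine Finset.sum_congr rfl fun k _ => ?_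
    rw [← mul_assoc, ← hy m k]
  · intro a _ b _ hab
    rw [Function.onFun, Finset.disjoint_left]
    intro k ha hb
    rw [mem_Qm] at ha hb
    exact hab (ha.symm.trans hb)

/-- the outer levels of the class `W^r_p`, `p ≥ 1` -/
theorem outer_W_gen
    (so : ∀ (e : ℕ) (r κ a b C : ℝ) (_ : 0 < κ) (_ : κ < r) (_ : 0 ≤ a) (_ : 0 ≤ b)
      (_ : 1 ≤ C) (S : ℕ → Set ((Fin (e + 1) → ℝ) → ℂ))
      (_ : ∀ m j : ℕ, CovF (S m) (C * ((m : ℝ) + 1) ^ a * (2 : ℝ) ^ (-(j : ℝ)))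
        (C * (1 + j) * ((m : ℝ) + 1) ^ e * 2 ^ m + 1))
      (_ : ∀ m j : ℕ, CovF (S m) (C * ((m : ℝ) + 1) ^ a * (2 : ℝ) ^ (κ * j))
        (C * (1 + j) * ((m : ℝ) + 1) ^ e * (2 : ℝ) ^ ((m : ℝ) - j) + 1)),
      ∀ δ > 0, ∃ J₀ : ℕ, ∀ J ≥ J₀, ∃ N₀ : ℕ, ∀ N ≥ N₀,
        CovA {h | ∃ g : ℕ → (Fin (e + 1) → ℝ) → ℂ, (∀ m, g m ∈ S m) ∧ ∀ L : ℕ, N + J < L →
          ∀ᵐ x ∂(tor (e + 1)),
            ‖h x - ∑ m ∈ (range L).filter (fun m => m ∉ Finset.Icc (N - J) (N + J)),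
              (((2 : ℝ) ^ (-(r * m)) : ℝ) : ℂ) * g m x‖ ≤
            C * ((L : ℝ) + 1) ^ b * (2 : ℝ) ^ (-((r - κ) * L))}
          (δ * ((N : ℝ) + 1) ^ a * (2 : ℝ) ^ (-(r * N))) (δ * ((N : ℝ) + 1) ^ e * 2 ^ N))
    (e : ℕ) (p : ℝ≥0∞) (hp : 1 ≤ p) (r κ a : ℝ) (hκ : max (1 / p.toReal) (1 / 2) ≤ κ)
    (hκr : κ < r) (ha : 0 ≤ a)
    (hlev : ∃ C : ℝ, 1 ≤ C ∧ ∀ (m : ℕ) (Q : Finset (Fin (e + 1) → ℤ))
      (μ : (Fin (e + 1) → ℤ) → ℂ),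
      (∀ k ∈ Q, ∀ j, |k j| ≤ 2 ^ m) → (∀ k, ‖μ k‖ ≤ 1) → ∀ j : ℕ,
      Cov (Sset Q Unit (fun _ => ()) μ p)
        (fun a' y => supn Q (a' - y) ≤ C * ((m : ℝ) + 1) ^ a * (2 : ℝ) ^ (-(j : ℝ)))
        (C * (1 + j) * Q.card + 1) ∧
      Cov (Sset Q Unit (fun _ => ()) μ p)
        (fun a' y => supn Q (a' - y) ≤ C * ((m : ℝ) + 1) ^ a * (2 : ℝ) ^ (κ * j))
        (C * (1 + j) * Q.card * (2 : ℝ) ^ (-(j : ℝ)) + 1)) :
    ∀ δ > 0, ∃ J₀ : ℕ, ∀ J ≥ J₀, ∃ N₀ : ℕ, ∀ N ≥ N₀,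
      CovA {h | ∃ φ : (Fin (e + 1) → ℝ) → ℂ, MemLp φ p (tor (e + 1)) ∧
          eLpNorm φ p (tor (e + 1)) ≤ 1 ∧
          h = fun x => (∫ y, (Fker r (x - y) : ℂ) * φ y ∂(tor (e + 1))) -
            MPW r (Qmid (e + 1) N J) φ x}
        (δ * ((N : ℝ) + 1) ^ a * (2 : ℝ) ^ (-(r * N))) (δ * ((N : ℝ) + 1) ^ e * 2 ^ N) := by
  have hκ0 : 0 < κ := lt_of_lt_of_le (lt_max_of_lt_right (by norm_num)) hκ
  have hr : 0 < r := by linarith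
  obtain ⟨C, hC, hlev⟩ := hlev
  set C₀ : ℝ := (2 : ℝ) ^ (r * ((e : ℝ) + 1)) with hC₀d
  have hC₀ : 1 ≤ C₀ := Real.one_le_rpow (by norm_num) (by positivity)
  set μ : (Fin (e + 1) → ℤ) → ℂ := fun k =>
    (((2 : ℝ) ^ (-(r * ((e : ℝ) + 1))) * (2 : ℝ) ^ (r * ∑ j, (lev k j : ℝ)) : ℝ) : ℂ) *
      ∏ j, bmul r r (k j) with hμ
  have hμ1 : ∀ k, ‖μ k‖ ≤ 1 := by
    intro k
    rw [hμ]
    simp only [norm_mul, Complex.norm_real, Real.norm_eq_abs]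
    rw [← abs_mul, abs_of_pos (by positivity)]
    have h1 := norm_bmul_le r hr k
    have h2 : (0 : ℝ) ≤ (2 : ℝ) ^ (-(r * ((e : ℝ) + 1))) * (2 : ℝ) ^ (r * ∑ j, (lev k j : ℝ)) := by
      positivity
    refine (mul_le_mul_of_nonneg_left h1 h2).trans (le_of_eq ?_)
    push_cast
    rw [← Real.rpow_add (by norm_num), ← Real.rpow_add (by norm_num),
      ← Real.rpow_add (by norm_num)]
    have : -(r * ((e : ℝ) + 1)) + r * ∑ j, (lev k j : ℝ) +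
        (r * ((e : ℝ) + 1) + -(r * ∑ j, (lev k j : ℝ))) = 0 := by ring
    rw [this, Real.rpow_zero]
  set A : (m : ℕ) → Set (Qm (e + 1) m × Bool → ℝ) :=
    fun m => Sset (Qm (e + 1) m) Unit (fun _ => ()) μ p with hA
  -- sup bounds
  have hsup : ∀ m, ∀ y ∈ A m, ∀ x, ‖TT (Qm (e + 1) m) y x‖ ≤
      2 * ((m : ℝ) + 1) ^ ((e : ℝ) * κ) * (2 : ℝ) ^ (κ * m) := by
    intro m y hy x
    have h1 := TT_Sset_le (Qm (e + 1) m) Unit (fun _ => ()) μ hμ1 p hp y hy x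
    refine h1.trans ?_
    have h2 := card_Qm_pow_le e m hκ0
    by_cases hQ : (Qm (e + 1) m).card = 0
    · rw [hQ]
      have h3 : (0 : ℝ) < max (1 / p.toReal) (1 / 2) := lt_max_of_lt_right (by norm_num)
      rw [Nat.cast_zero, Real.zero_rpow h3.ne', mul_zero]
      positivity
    · have h3 : (1 : ℝ) ≤ (Qm (e + 1) m).card := by
        exact_mod_cast Nat.one_le_iff_ne_zero.2 hQ
      have h4 := Real.rpow_le_rpow_of_exponent_le h3 hκ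
      simp only [Fintype.card_unit, Nat.cast_one, mul_one]
      calc 2 * ((Qm (e + 1) m).card : ℝ) ^ (max (1 / p.toReal) (1 / 2)) ≤
          2 * (((m : ℝ) + 1) ^ ((e : ℝ) * κ) * (2 : ℝ) ^ (κ * m)) := by linarith
        _ = _ := by ring
  obtain ⟨C₂, hC₂⟩ := decomp (e + 1) r κ ((e : ℝ) * κ) (C₀ * 2) hκr (by positivity)
    (by positivity)
  set D : ℝ := max (C₀ * C) (max C₂ 1) with hD
  have hD0 : C₀ * C ≤ D := le_max_left _ _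
  have hD2 : C₂ ≤ D := (le_max_left _ _).trans (le_max_right _ _)
  have hD1 : 1 ≤ D := (le_max_right _ _).trans (le_max_right _ _)
  have hCD : C ≤ D := le_trans (by nlinarith) hD0
  intro δ hδ
  have hso := so e r κ a ((e : ℝ) * κ) D hκ0 hκr ha (by positivity) hD1
    (fun m => {f | ∃ y ∈ A m, f = TT (Qm (e + 1) m) (C₀ • y)}) ?_ ?_ δ hδ
  · obtain ⟨J₀, hJ₀⟩ := hso
    refine ⟨J₀, fun J hJ => ?_⟩
    obtain ⟨N₀, hN₀⟩ := hJ₀ J hJ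
    refine ⟨N₀, fun N hN => ?_⟩
    obtain ⟨t, ht1, ht2, ht3⟩ := hN₀ N hN
    refine ⟨t, ht1, ht2, ?_⟩
    rintro h ⟨φ, hφ, hφ1, rfl⟩
    refine ht3 _ ?_
    -- coefficients
    have hφi : Integrable φ (tor (e + 1)) := by
      have : IsProbabilityMeasure (tor (e + 1)) := Pool.Agent.Helper3.SB.isProb_tor _
      exact hφ.integrable hp
    obtain ⟨hfi, hfc⟩ := fc_conv (e + 1) r hr φ hφi
    set y : (m : ℕ) → (Qm (e + 1) m × Bool → ℝ) := fun m i =>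
      if i.2 then (μ i.1 * fc φ i.1).im else (μ i.1 * fc φ i.1).re with hy
    have hcy : ∀ m, ∀ k : Qm (e + 1) m, cco (y m) k = μ k * fc φ k := by
      intro m k
      unfold cco
      simp only [hy, Bool.false_eq_true, if_false, if_true]
      exact Complex.re_add_im _
    have hyA : ∀ m, y m ∈ A m := fun m => ⟨fun _ => φ, fun _ => ⟨hφ, hφ1⟩, hcy m⟩
    have hyk : ∀ m, ∀ k : Qm (e + 1) m,
        (∏ j, bmul r r ((k : Fin (e + 1) → ℤ) j)) * fc φ k =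
          (((2 : ℝ) ^ (-(r * m)) : ℝ) : ℂ) * cco (C₀ • y m) k := by
      intro m k
      have h2 : cco (C₀ • y m) k = (C₀ : ℂ) * cco (y m) k := by
        unfold cco
        simp only [Pi.smul_apply, smul_eq_mul]
        push_cast; ring
      rw [h2, hcy m k, hμ]
      simp only
      rw [level_of_mem k, hC₀d]
      rw [← mul_assoc, ← mul_assoc, ← mul_assoc, ← Complex.ofReal_mul, ← Complex.ofReal_mul,
        ← Real.rpow_add (by norm_num), ← Real.rpow_add (by norm_num),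
        ← Real.rpow_add (by norm_num)]
      have : -(r * (m : ℝ)) + r * ((e : ℝ) + 1) + (-(r * ((e : ℝ) + 1)) + r * (m : ℝ)) = 0 := by
        ring
      rw [this, Real.rpow_zero, Complex.ofReal_one, one_mul]
    refine ⟨fun m => TT (Qm (e + 1) m) (C₀ • y m), fun m => ⟨y m, hyA m, rfl⟩, ?_⟩
    intro L hL
    have h1 := hC₂ _ hfi (fun m => C₀ • y m) ?_ ?_ L
    · filter_upwards [h1] with x hx
      have h5 : ∑ m ∈ range L, (((2 : ℝ) ^ (-(r * m)) : ℝ) : ℂ) *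
          TT (Qm (e + 1) m) (C₀ • y m) x =
          ∑ m ∈ (range L).filter (fun m => m ∉ Finset.Icc (N - J) (N + J)),
            (((2 : ℝ) ^ (-(r * m)) : ℝ) : ℂ) * TT (Qm (e + 1) m) (C₀ • y m) x +
          MPW r (Qmid (e + 1) N J) φ x := by
        rw [MPW_eq e r φ (fun m => C₀ • y m) hyk N J x]
        have h6 : Finset.Icc (N - J) (N + J) =
            (range L).filter (fun m => m ∈ Finset.Icc (N - J) (N + J)) := by
          ext m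
          simp only [mem_filter, mem_range, Finset.mem_Icc]
          omega
        have h7 := Finset.sum_filter_add_sum_filter_not (range L)
          (fun m => m ∈ Finset.Icc (N - J) (N + J))
          (fun m => (((2 : ℝ) ^ (-(r * m)) : ℝ) : ℂ) * TT (Qm (e + 1) m) (C₀ • y m) x)
        rw [← h6] at h7
        rw [← h7, add_comm]
      rw [h5] at hx
      have h8 : (∫ y, (Fker r (x - y) : ℂ) * φ y ∂(tor (e + 1))) -
            MPW r (Qmid (e + 1) N J) φ x -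
          ∑ m ∈ (range L).filter (fun m => m ∉ Finset.Icc (N - J) (N + J)),
            (((2 : ℝ) ^ (-(r * m)) : ℝ) : ℂ) * TT (Qm (e + 1) m) (C₀ • y m) x =
          (∫ y, (Fker r (x - y) : ℂ) * φ y ∂(tor (e + 1))) -
          (∑ m ∈ (range L).filter (fun m => m ∉ Finset.Icc (N - J) (N + J)),
            (((2 : ℝ) ^ (-(r * m)) : ℝ) : ℂ) * TT (Qm (e + 1) m) (C₀ • y m) x +
          MPW r (Qmid (e + 1) N J) φ x) := by ring
      rw [h8]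
      refine hx.trans ?_
      gcongr
    · intro m k
      rw [hfc k, hyk m k]
    · intro m x
      rw [TT_smul, norm_mul, Complex.norm_real, Real.norm_eq_abs, abs_of_nonneg (by linarith)]
      calc C₀ * ‖TT (Qm (e + 1) m) (y m) x‖ ≤
          C₀ * (2 * ((m : ℝ) + 1) ^ ((e : ℝ) * κ) * (2 : ℝ) ^ (κ * m)) :=
            mul_le_mul_of_nonneg_left (hsup m _ (hyA m) x) (by linarith)
        _ = _ := by ring
  · intro m j
    have h1 := covF_of_cov (Qm (e + 1) m) (A m) C₀ _ _ (by linarith)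
      (hlev m (Qm (e + 1) m) μ (Qm_le (e + 1) m) hμ1 j).1
    obtain ⟨t, h2, h3, h4⟩ := h1
    refine ⟨t, h2.trans (Real.exp_le_exp.2 ?_), h3, fun f hf => ?_⟩
    · have h5 := card_Qm e m
      have h6 : C * (1 + j) * (Qm (e + 1) m).card ≤
          D * (1 + j) * (((m : ℝ) + 1) ^ e * 2 ^ m) := by
        refine mul_le_mul ?_ h5 (by positivity) (by positivity)
        exact mul_le_mul_of_nonneg_right hCD (by positivity)
      linarith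
    · obtain ⟨y, hy, h5⟩ := h4 f hf
      refine ⟨y, hy, fun x => (h5 x).trans ?_⟩
      calc C₀ * (C * ((m : ℝ) + 1) ^ a * (2 : ℝ) ^ (-(j : ℝ)))
          = (C₀ * C) * ((m : ℝ) + 1) ^ a * (2 : ℝ) ^ (-(j : ℝ)) := by ring
        _ ≤ _ := by gcongr
  · intro m j
    have h1 := covF_of_cov (Qm (e + 1) m) (A m) C₀ _ _ (by linarith)
      (hlev m (Qm (e + 1) m) μ (Qm_le (e + 1) m) hμ1 j).2
    obtain ⟨t, h2, h3, h4⟩ := h1
    refine ⟨t, h2.trans (Real.exp_le_exp.2 ?_), h3, fun f hf => ?_⟩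
    · have h5 := card_Qm e m
      have h6 : C * (1 + j) * (Qm (e + 1) m).card ≤
          D * (1 + j) * (((m : ℝ) + 1) ^ e * 2 ^ m) := by
        refine mul_le_mul ?_ h5 (by positivity) (by positivity)
        exact mul_le_mul_of_nonneg_right hCD (by positivity)
      have h7 : (2 : ℝ) ^ ((m : ℝ) - j) = 2 ^ m * (2 : ℝ) ^ (-(j : ℝ)) := by
        rw [sub_eq_add_neg, Real.rpow_add (by norm_num), Real.rpow_natCast]
      rw [h7]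
      have h8 : (0 : ℝ) ≤ (2 : ℝ) ^ (-(j : ℝ)) := by positivity
      have := mul_le_mul_of_nonneg_right h6 h8
      linarith
    · obtain ⟨y, hy, h5⟩ := h4 f hf
      refine ⟨y, hy, fun x => (h5 x).trans ?_⟩
      calc C₀ * (C * ((m : ℝ) + 1) ^ a * (2 : ℝ) ^ (κ * j))
          = (C₀ * C) * ((m : ℝ) + 1) ^ a * (2 : ℝ) ^ (κ * j) := by ring
        _ ≤ _ := by gcongr

theorem outer_W_one
    (so : ∀ (e : ℕ) (r κ a b C : ℝ) (_ : 0 < κ) (_ : κ < r) (_ : 0 ≤ a) (_ : 0 ≤ b)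
      (_ : 1 ≤ C) (S : ℕ → Set ((Fin (e + 1) → ℝ) → ℂ))
      (_ : ∀ m j : ℕ, CovF (S m) (C * ((m : ℝ) + 1) ^ a * (2 : ℝ) ^ (-(j : ℝ)))
        (C * (1 + j) * ((m : ℝ) + 1) ^ e * 2 ^ m + 1))
      (_ : ∀ m j : ℕ, CovF (S m) (C * ((m : ℝ) + 1) ^ a * (2 : ℝ) ^ (κ * j))
        (C * (1 + j) * ((m : ℝ) + 1) ^ e * (2 : ℝ) ^ ((m : ℝ) - j) + 1)),
      ∀ δ > 0, ∃ J₀ : ℕ, ∀ J ≥ J₀, ∃ N₀ : ℕ, ∀ N ≥ N₀,
        CovA {h | ∃ g : ℕ → (Fin (e + 1) → ℝ) → ℂ, (∀ m, g m ∈ S m) ∧ ∀ L : ℕ, N + J < L →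
          ∀ᵐ x ∂(tor (e + 1)),
            ‖h x - ∑ m ∈ (range L).filter (fun m => m ∉ Finset.Icc (N - J) (N + J)),
              (((2 : ℝ) ^ (-(r * m)) : ℝ) : ℂ) * g m x‖ ≤
            C * ((L : ℝ) + 1) ^ b * (2 : ℝ) ^ (-((r - κ) * L))}
          (δ * ((N : ℝ) + 1) ^ a * (2 : ℝ) ^ (-(r * N))) (δ * ((N : ℝ) + 1) ^ e * 2 ^ N))
    (lw : ∀ d : ℕ, ∃ C : ℝ, 1 ≤ C ∧
      ∀ (m : ℕ) (Q : Finset (Fin d → ℤ)) (μ : (Fin d → ℤ) → ℂ),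
        (∀ k ∈ Q, ∀ j, |k j| ≤ 2 ^ m) → (∀ k, ‖μ k‖ ≤ 1) → ∀ j : ℕ,
        Cov (Sset Q Unit (fun _ => ()) μ 1)
          (fun a y => supn Q (a - y) ≤ C * ((m : ℝ) + 1) * (2 : ℝ) ^ (-(j : ℝ)))
          (C * (1 + j) * Q.card + 1) ∧
        Cov (Sset Q Unit (fun _ => ()) μ 1)
          (fun a y => supn Q (a - y) ≤ C * ((m : ℝ) + 1) * (2 : ℝ) ^ (j : ℝ))
          (C * (1 + j) * Q.card * (2 : ℝ) ^ (-(j : ℝ)) + 1))
    (e : ℕ) (r : ℝ) (hr : 1 < r) :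
    ∀ δ > 0, ∃ J₀ : ℕ, ∀ J ≥ J₀, ∃ N₀ : ℕ, ∀ N ≥ N₀,
      CovA {h | ∃ φ : (Fin (e + 1) → ℝ) → ℂ, MemLp φ 1 (tor (e + 1)) ∧
          eLpNorm φ 1 (tor (e + 1)) ≤ 1 ∧
          h = fun x => (∫ y, (Fker r (x - y) : ℂ) * φ y ∂(tor (e + 1))) -
            MPW r (Qmid (e + 1) N J) φ x}
        (δ * ((N : ℝ) + 1) * (2 : ℝ) ^ (-(r * N))) (δ * ((N : ℝ) + 1) ^ e * 2 ^ N) := by
  have h := outer_W_gen so e 1 le_rfl r 1 1 (by norm_num) hr zero_le_one (by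
    obtain ⟨C, hC, h⟩ := lw (e + 1)
    refine ⟨C, hC, fun m Q μ hQ hμ j => ?_⟩
    have := h m Q μ hQ hμ j
    simpa only [Real.rpow_one, one_mul] using this)
  simpa only [Real.rpow_one] using h

theorem outer_W_two
    (so : ∀ (e : ℕ) (r κ a b C : ℝ) (_ : 0 < κ) (_ : κ < r) (_ : 0 ≤ a) (_ : 0 ≤ b)
      (_ : 1 ≤ C) (S : ℕ → Set ((Fin (e + 1) → ℝ) → ℂ))
      (_ : ∀ m j : ℕ, CovF (S m) (C * ((m : ℝ) + 1) ^ a * (2 : ℝ) ^ (-(j : ℝ)))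
        (C * (1 + j) * ((m : ℝ) + 1) ^ e * 2 ^ m + 1))
      (_ : ∀ m j : ℕ, CovF (S m) (C * ((m : ℝ) + 1) ^ a * (2 : ℝ) ^ (κ * j))
        (C * (1 + j) * ((m : ℝ) + 1) ^ e * (2 : ℝ) ^ ((m : ℝ) - j) + 1)),
      ∀ δ > 0, ∃ J₀ : ℕ, ∀ J ≥ J₀, ∃ N₀ : ℕ, ∀ N ≥ N₀,
        CovA {h | ∃ g : ℕ → (Fin (e + 1) → ℝ) → ℂ, (∀ m, g m ∈ S m) ∧ ∀ L : ℕ, N + J < L →
          ∀ᵐ x ∂(tor (e + 1)),
            ‖h x - ∑ m ∈ (range L).filter (fun m => m ∉ Finset.Icc (N - J) (N + J)),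
              (((2 : ℝ) ^ (-(r * m)) : ℝ) : ℂ) * g m x‖ ≤
            C * ((L : ℝ) + 1) ^ b * (2 : ℝ) ^ (-((r - κ) * L))}
          (δ * ((N : ℝ) + 1) ^ a * (2 : ℝ) ^ (-(r * N))) (δ * ((N : ℝ) + 1) ^ e * 2 ^ N))
    (e : ℕ) (r : ℝ) (hr : 1 / 2 < r) :
    ∀ δ > 0, ∃ J₀ : ℕ, ∀ J ≥ J₀, ∃ N₀ : ℕ, ∀ N ≥ N₀,
      CovA {h | ∃ φ : (Fin (e + 1) → ℝ) → ℂ, MemLp φ 2 (tor (e + 1)) ∧
          eLpNorm φ 2 (tor (e + 1)) ≤ 1 ∧
          h = fun x => (∫ y, (Fker r (x - y) : ℂ) * φ y ∂(tor (e + 1))) -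
            MPW r (Qmid (e + 1) N J) φ x}
        (δ * Real.sqrt ((N : ℝ) + 1) * (2 : ℝ) ^ (-(r * N))) (δ * ((N : ℝ) + 1) ^ e * 2 ^ N) := by
  obtain ⟨κ, hκ1, hκ2⟩ := exists_between hr
  have h2 : (1 : ℝ) / (2 : ℝ≥0∞).toReal = 1 / 2 := by norm_num
  have h := outer_W_gen so e 2 (by norm_num) r κ (1 / 2) (by rw [h2]; simpa using hκ1.le) hκ2
    (by norm_num) (by
    obtain ⟨C, hC, h⟩ := level_entropy (e + 1) 2 (by norm_num) κ (by rw [h2]; exact hκ1) hκ1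
    refine ⟨C, hC, fun m Q μ hQ hμ j => ?_⟩
    have := h m Q Unit (fun _ => ()) μ hQ hμ j
    simpa only [Fintype.card_unit, Nat.cast_one, Real.sqrt_one, mul_one, Real.sqrt_eq_rpow,
      Real.one_rpow] using this)
  simpa only [Real.sqrt_eq_rpow] using h

end Pool.Agent.Helper22.SB
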